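import Pool.Agent.P.MP_c2263a_gt.Fix.Upper
import Pool.Agent.P.MP_c2263a_gt.Seven.Core7
import Pool.Agent.P.MP_c2263a_gt.Seven.One

/-! The asymptotic number of equi-isoclinic 3-planes with a fixed angle. -/

set_option autoImplicit false

namespace Pool.Agent.Results.MP_c2263a_gt.AllAngleLimit

open Pool.Agent.P.MP_c2263a_gt.Fix Pool.Agent.P.MP_c2263a_gt.All Pool.Agent.P.MP_c2263a_gt.Seven
  Filter Topology

theorem low {α : ℝ} (h0 : 0 < α)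
    (h : α < 1 / 11 ∨ ∃ k : ℕ, 2 ≤ k ∧ α = 1 / (2 * (k : ℝ) - 1)) {d : ℕ}
    (hd : d = ⌈(1 - α) / (2 * α)⌉₊) :
    α < 1 ∧ ∀ η : ℝ, 0 < η →
    ∃ m0 : ℕ, ∀ m, m0 ≤ m → ∃ (v : ℕ) (U : Fin v → Submodule ℝ (EuclideanSpace ℝ (Fin m))),
      ((∀ i, Module.finrank ℝ (U i) = 3) ∧ ∀ i j, i ≠ j → ∀ u ∈ U i,
        ‖(U j).starProjection u‖ ^ 2 = α ^ 2 * ‖u‖ ^ 2) ∧
      (d + 1) / d * (m : ℝ) ≤ (1 + η) ^ 4 * v := by
  have int : (∃ k : ℕ, 2 ≤ k ∧ α = 1 / (2 * (k : ℝ) - 1)) → α < 1 ∧ ∀ η : ℝ, 0 < η →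
      ∃ m0 : ℕ, ∀ m, m0 ≤ m → ∃ (v : ℕ) (U : Fin v → Submodule ℝ (EuclideanSpace ℝ (Fin m))),
        ((∀ i, Module.finrank ℝ (U i) = 3) ∧ ∀ i j, i ≠ j → ∀ u ∈ U i,
          ‖(U j).starProjection u‖ ^ 2 = α ^ 2 * ‖u‖ ^ 2) ∧
        (d + 1) / d * (m : ℝ) ≤ (1 + η) ^ 4 * v := fun ⟨k, hk, h⟩ => by
    obtain ⟨e, rfl⟩ : ∃ e, k = e + 1 := ⟨k - 1, by omega⟩
    have e1 : (1 : ℝ) ≤ e := by exact_mod_cast Nat.le_of_succ_le_succ hk
    have e2 : α * (2 * e + 1) = 1 := by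
      rw [h, Nat.cast_succ, show 2 * ((e : ℝ) + 1) - 1 = 2 * e + 1 by ring,
        one_div_mul_cancel (by linarith)]
    have e3 : d = e := by
      rw [hd, show (1 - α) / (2 * α) = e by rw [div_eq_iff (by linarith)]; linarith, Nat.ceil_natCast]
    refine ⟨by nlinarith, fun η hη => ?_⟩
    rw [e3, h]
    exact lower (by omega) hη
  rcases h with h | h
  · have d7 : 5 < d := by
      rw [hd, Nat.lt_ceil, lt_div_iff₀ (by linarith)]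
      push_cast
      linarith
    have h1 : (1 - α) / (2 * α) ≤ d := hd ▸ Nat.le_ceil _
    have h2 : d ≤ (1 - α) / (2 * α) + 1 :=
      hd ▸ (Nat.ceil_lt_add_one (div_nonneg (by linarith) (by linarith))).le
    rcases h1.lt_or_eq with h3 | h3
    · refine ⟨by linarith, fun η hη => ?_⟩
      by_cases c6 : d = 6
      · rw [c6] at h3 h2 ⊢
        exact low7 h0 h3 h2 hη
      by_cases c : d = 8 ∨ d = 10
      · exact lowOdd c h0 h3 h2 hη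
      · exact lowAll (by rw [Nat.odd_iff]; omega) h0 h1 h2 hη
    · refine int ⟨d + 1, by omega, ?_⟩
      rw [div_eq_iff (by linarith)] at h3
      push_cast
      rw [eq_div_iff (by linarith [Nat.cast_nonneg (α := ℝ) d])]
      linarith
  · exact int h

theorem lim {α c : ℝ}
    (lo : ∀ η : ℝ, 0 < η →
      ∃ m0 : ℕ, ∀ m, m0 ≤ m → ∃ (v : ℕ) (U : Fin v → Submodule ℝ (EuclideanSpace ℝ (Fin m))),
        ((∀ i, Module.finrank ℝ (U i) = 3) ∧ ∀ i j, i ≠ j → ∀ u ∈ U i,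
          ‖(U j).starProjection u‖ ^ 2 = α ^ 2 * ‖u‖ ^ 2) ∧ c * (m : ℝ) ≤ (1 + η) ^ 4 * v)
    (hi : ∀ ε : ℝ, 0 < ε → ∃ m0 : ℕ, ∀ m, m0 ≤ m →
      ∀ (v : ℕ) (X : Fin v → Matrix (Fin m) (Fin 3) ℝ), Fr α X → (v : ℝ) ≤ (c + ε) * m) :
    Filter.Tendsto (fun m : ℕ =>
      ((sSup {v : ℕ | ∃ U : Fin v → Submodule ℝ (EuclideanSpace ℝ (Fin m)),
        (∀ i, Module.finrank ℝ (U i) = 3) ∧ ∀ i j, i ≠ j → ∀ u ∈ U i,
          ‖(U j).starProjection u‖ ^ 2 = α ^ 2 * ‖u‖ ^ 2} : ℕ) : ℝ) / m)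
      Filter.atTop (nhds c) := by
  have up : ∀ ε : ℝ, 0 < ε → ∃ m0 : ℕ, ∀ m, m0 ≤ m → ∀ v ∈ {v : ℕ |
      ∃ U : Fin v → Submodule ℝ (EuclideanSpace ℝ (Fin m)),
        (∀ i, Module.finrank ℝ (U i) = 3) ∧ ∀ i j, i ≠ j → ∀ u ∈ U i,
          ‖(U j).starProjection u‖ ^ 2 = α ^ 2 * ‖u‖ ^ 2},
      (v : ℝ) ≤ (c + ε) * m := fun ε hε => by
    obtain ⟨m0, hm⟩ := hi ε hε
    refine ⟨m0, fun m hm0 v ⟨U, hU, h⟩ => ?_⟩
    obtain ⟨X, hX⟩ := frames U hU h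
    exact hm m hm0 v X hX
  obtain ⟨m1, hm1⟩ := up 1 one_pos
  have bdd := fun m hm => (⟨_, fun v hv => Nat.le_floor (hm1 m hm v hv)⟩ : BddAbove _)
  refine tendsto_order.2 ⟨fun a ha => ?_, fun a ha => ?_⟩
  · obtain ⟨η, h2, h3⟩ := ((((by fun_prop : Continuous fun η : ℝ => a * (1 + η) ^ 4).tendsto' 0 a
      (by simp)).eventually (gt_mem_nhds ha)).filter_mono
        (nhdsWithin_le_nhds (s := Set.Ioi 0))).and self_mem_nhdsWithin |>.exists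
    obtain ⟨m0, hm0⟩ := lo η h3
    filter_upwards [eventually_ge_atTop m0, eventually_ge_atTop m1, eventually_gt_atTop 0]
      with m a0 a1 a2
    obtain ⟨v, U, hU, hv⟩ := hm0 m a0
    have b0 : (0 : ℝ) < m := by exact_mod_cast a2
    have b1 : (0 : ℝ) < (1 + η) ^ 4 := pow_pos (by linarith) 4
    have b2 := (Nat.cast_le (α := ℝ)).2 (le_csSup (bdd m a1) ⟨U, hU⟩)
    rw [lt_div_iff₀ b0]
    refine lt_of_lt_of_le (lt_of_mul_lt_mul_left ?_ b1.le) b2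
    linarith [mul_lt_mul_of_pos_right h2 b0]
  · obtain ⟨m0, hm0⟩ := up ((a - c) / 2) (by linarith)
    filter_upwards [eventually_ge_atTop m0, eventually_ge_atTop m1, eventually_gt_atTop 0]
      with m a0 a1 a2
    have b0 : (0 : ℝ) < m := by exact_mod_cast a2
    rw [div_lt_iff₀ b0]
    exact (hm0 m a0 _ (Nat.sSup_mem ⟨0, Fin.elim0, fun i => i.elim0, fun i => i.elim0⟩
      (bdd m a1))).trans_lt (mul_lt_mul_of_pos_right (by linarith) b0)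

theorem result (α : ℝ) (h0 : 0 < α) (h1 : α < 1)
    (h : α < 1 / 11 ∨ (∃ k : ℕ, 2 ≤ k ∧ α = 1 / (2 * (k : ℝ) - 1)) ∨ 3 / 5 < α) :
    Filter.Tendsto (fun m : ℕ =>
      ((sSup {v : ℕ | ∃ U : Fin v → Submodule ℝ (EuclideanSpace ℝ (Fin m)),
        (∀ i, Module.finrank ℝ (U i) = 3) ∧ ∀ i j, i ≠ j → ∀ u ∈ U i,
          ‖(U j).starProjection u‖ ^ 2 = α ^ 2 * ‖u‖ ^ 2} : ℕ) : ℝ) / m)
      Filter.atTop
      (nhds (if 3 / 5 < α then 1 else 1 + 1 / (⌈(1 - α) / (2 * α)⌉₊ : ℝ))) := by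
  split_ifs with c
  · exact lim (fun η hη => lowOne h0 h1 hη) fun ε hε =>
      upper_one (n := 3) (by norm_num) h1 (by norm_num; exact c) hε
  obtain ⟨d, hd⟩ : ∃ d, d = ⌈(1 - α) / (2 * α)⌉₊ := ⟨_, rfl⟩
  obtain ⟨-, lo⟩ := low h0 (h.imp_right fun h => h.resolve_right c) hd
  have l0 : 0 < (1 - α) / (2 * α) := div_pos (by linarith) (by linarith)
  have d0 : 0 < d := hd ▸ Nat.ceil_pos.2 l0
  have d1 : (0 : ℝ) < d := by exact_mod_cast d0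
  rw [← hd]
  rw [add_div, div_self d1.ne'] at lo
  refine lim lo fun ε hε => ?_
  have := upper_k (n := 3) (k := d + 1) (by norm_num) h0 h1 (by omega) (Or.inl (by
    have := Nat.ceil_lt_add_one l0.le
    rw [← hd] at this
    push_cast
    linarith)) hε
  rwa [Nat.cast_succ, add_sub_cancel_right] at this

end Pool.Agent.Results.MP_c2263a_gt.AllAngleLimit
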