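import Pool.Agent.P.MP_c2263a_gt.Fix.Upper

/-! A linear upper bound for equi-isoclinic `n`-planes with a fixed angle. -/

set_option autoImplicit false

namespace Pool.Agent.Results.MP_c2263a_gt.FixedAngleUpper

open Pool.Agent.P.MP_c2263a_gt.Fix

theorem result (n : ℕ) (hn : 1 ≤ n) (α : ℝ) (h0 : 0 < α) (h1 : α < 1) (ε : ℝ) (hε : 0 < ε) :
    ∃ m₀ : ℕ, ∀ m : ℕ, m₀ ≤ m →
      ∀ (v : ℕ) (U : Fin v → Submodule ℝ (EuclideanSpace ℝ (Fin m))),
        (∀ i, Module.finrank ℝ (U i) = n) →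
        (∀ i j, i ≠ j → ∀ u ∈ U i, ‖(U j).starProjection u‖ ^ 2 = α ^ 2 * ‖u‖ ^ 2) →
        (v : ℝ) ≤ ((if (n : ℝ) / (n + 2) < α then 1
          else 1 + 1 / (⌈max ((1 - α) / (2 * α)) (2 * α / (1 - α))⌉₊ : ℝ)) + ε) * m := by
  split_ifs with hα
  · obtain ⟨m0, hm⟩ := upper_one hn h1 hα hε
    refine ⟨m0, fun m hm0 v U hU h => ?_⟩
    obtain ⟨X, hX⟩ := frames U hU h
    exact hm m hm0 v X hX
  · have hM : 0 < max ((1 - α) / (2 * α)) (2 * α / (1 - α)) :=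
      lt_max_of_lt_left (div_pos (by linarith) (by linarith))
    have hc := Nat.ceil_pos.2 hM
    have hl := Nat.ceil_lt_add_one hM.le
    obtain ⟨m0, hm⟩ := upper_k (k := ⌈max ((1 - α) / (2 * α)) (2 * α / (1 - α))⌉₊ + 1) hn h0 h1
      (by omega) (lt_max_iff.1 (by push_cast; linarith)) hε
    refine ⟨m0, fun m hm0 v U hU h => ?_⟩
    obtain ⟨X, hX⟩ := frames U hU h
    simpa using hm m hm0 v X hX

end Pool.Agent.Results.MP_c2263a_gt.FixedAngleUpper
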