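import Pool.Agent.P.MP_c2263a_gt.Eighteen

/-! Eighteen equi-isoclinic 3-planes in every dimension `m ≥ 13`. -/

namespace Pool.Agent.Results.MP_c2263a_gt.Lower18

theorem result (m : ℕ) (hm : 13 ≤ m) :
    ∃ U : Fin 18 → Submodule ℝ (EuclideanSpace ℝ (Fin m)), Function.Injective U ∧
      (∀ i, Module.finrank ℝ (U i) = 3) ∧
      ∀ i j, i ≠ j → ∀ u ∈ U i, ‖(U j).starProjection u‖ ^ 2 = 1 / 5 * ‖u‖ ^ 2 :=
  Pool.Agent.P.MP_c2263a_gt.eighteen m hm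

end Pool.Agent.Results.MP_c2263a_gt.Lower18
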