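import Pool.Agent.P.MP_c2263a_gt.Bound

/-! An absolute bound for equi-isoclinic 3-planes in Euclidean space of dimension `m ≥ 12`. -/

namespace Pool.Agent.Results.MP_c2263a_gt.UpperBound

open Pool.Agent.P.MP_c2263a_gt Matrix

theorem result (m v : ℕ) (hm : 12 ≤ m)
    (U : Fin v → Submodule ℝ (EuclideanSpace ℝ (Fin m)))
    (hU : ∀ i, Module.finrank ℝ (U i) = 3)
    (lam : ℝ) (h0 : 0 < lam) (h1 : lam < 1)
    (h : ∀ i j, i ≠ j → ∀ u ∈ U i, ‖(U j).starProjection u‖ ^ 2 = lam * ‖u‖ ^ 2) :
    6 * v ≤ m * max (m - 1) 20 := by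
  let b := EuclideanSpace.basisFun (Fin m) ℝ
  let p : Fin v → (EuclideanSpace ℝ (Fin m) →ₗ[ℝ] EuclideanSpace ℝ (Fin m)) :=
    fun i => ((U i).starProjection : EuclideanSpace ℝ (Fin m) →ₗ[ℝ] EuclideanSpace ℝ (Fin m))
  have hp : ∀ i x, p i x = (U i).starProjection x := fun _ _ => rfl
  have ps : ∀ i, (p i).IsSymmetric := fun i => (U i).starProjection_isSymmetric
  have pm : ∀ i x, p i x ∈ U i := fun i x => (U i).starProjection_apply_mem x
  have pid : ∀ i x, x ∈ U i → p i x = x := fun i x hx =>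
    Submodule.starProjection_eq_self_iff.2 hx
  have pp : ∀ i, p i ∘ₗ p i = p i := fun i => by
    ext1 x; exact pid i _ (pm i x)
  have piso : ∀ i j, i ≠ j → p i ∘ₗ p j ∘ₗ p i = lam • p i := fun i j e => by
    have hs : (p i ∘ₗ p j ∘ₗ p i - lam • p i).IsSymmetric := fun x y => by
      simp only [LinearMap.sub_apply, LinearMap.comp_apply, LinearMap.smul_apply,
        inner_sub_left, inner_sub_right, real_inner_smul_left, real_inner_smul_right]
      rw [ps i, ps j, ps i, ps i x y]
    rw [← sub_eq_zero, ← hs.inner_map_self_eq_zero]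
    intro x
    simp only [LinearMap.sub_apply, LinearMap.comp_apply, LinearMap.smul_apply,
      inner_sub_left, real_inner_smul_left]
    have e1 : inner ℝ (p i (p j (p i x))) x = ‖p j (p i x)‖ ^ 2 := by
      rw [ps i, ← real_inner_self_eq_norm_sq, ps j _ (p j (p i x)), pid j _ (pm j _), ps j]
    have e2 : inner ℝ (p i x) x = ‖p i x‖ ^ 2 := by
      rw [← real_inner_self_eq_norm_sq, ps i x (p i x), pid i _ (pm i _), ps i]
    rw [e1, e2, hp j, h i j e _ (pm i x), sub_self]
  have H : Hyp (fun i => LinearMap.toMatrix b.toBasis b.toBasis (p i)) lam := by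
    refine ⟨fun i => ?_, fun i => ?_, fun i => ?_, fun i j e => ?_⟩
    · have := (LinearMap.isHermitian_toMatrix_iff b).2 (ps i)
      rwa [Matrix.IsHermitian, conjTranspose_eq_transpose_of_trivial] at this
    · rw [← LinearMap.toMatrix_comp, pp]
    · rw [← LinearMap.trace_eq_matrix_trace]
      have : LinearMap.IsProj (U i) (p i) := ⟨pm i, pid i⟩
      rw [this.trace, hU]; norm_num
    · rw [← LinearMap.toMatrix_comp, ← LinearMap.toMatrix_comp, LinearMap.comp_assoc, piso i j e,
        map_smul]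
  exact H.bound h0 h1 hm

end Pool.Agent.Results.MP_c2263a_gt.UpperBound
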